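import Pool.Agent.H177R3.CosE

/-!
Assume the Riemann hypothesis.  The unfolded gaps of the zeta zeros do not concentrate on a coset
`a + s ℤ` with `s ≥ 1`: for every `s ≥ 1` a positive proportion of them stays away from `a + s ℤ`,
uniformly in the real number `a`.

Idea of the proof.  If almost all the gaps were close to `a + s ℤ`, then with `θ = 1 / s ≤ 1` the
exponential sum over nearby zeros at the frequency `θ + β` would be the sum of `e(θ a n + β y_n)`.
If `θ a` is not an integer, summation by parts and Plancherel's theorem show that its mean square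
over `|β| ≤ 3 e` is of smaller order than `e`, whereas Montgomery's theorem (form factor `|α|` on
`(-1, 1)`) gives a multiple of `θ e`.  The passage from pairs to consecutive zeros uses bounds for
the moments of the number of zeros in windows of bounded length at the scale of the mean spacing.
-/

open Filter

namespace Pool.Agent.Results.MP_7eacff_nt.CosetExclusion

/-- multiplicity of `s` as a zero of the Riemann zeta function (order of vanishing at `s`) -/
noncomputable def zmult (s : ℂ) : ℕ := analyticOrderNatAt riemannZeta s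

/-- the number of nontrivial zeros of `ζ` with ordinate in `(0, t]`, with multiplicity -/
noncomputable def NZ (t : ℝ) : ℕ :=
  ∑ᶠ s ∈ {s : ℂ | riemannZeta s = 0 ∧ 0 < s.re ∧ s.re < 1 ∧ 0 < s.im ∧ s.im ≤ t}, zmult s

/-- for `n ≥ 1`: the `n`-th positive ordinate `γ n` of a nontrivial zero of `ζ`, the ordinates being
listed in nondecreasing order and repeated according to multiplicity -/
noncomputable def γ (n : ℕ) : ℝ := sInf {t : ℝ | n ≤ NZ t}

/-- the unfolded gaps `δ_n = (γ_{n+1} - γ_n) / 2π * log (γ_n / 2π)` -/
noncomputable def δ (n : ℕ) : ℝ :=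
  (γ (n + 1) - γ n) / (2 * Real.pi) * Real.log (γ n / (2 * Real.pi))

/-- On the Riemann hypothesis: for every `s ≥ 1` there is `ε > 0` such that for all large `N` and
all real `a` at least `ε N` of the unfolded gaps `δ_1, …, δ_N` have distance at least `ε` from
every `a + s k`, `k` an integer. -/
theorem result (RH : RiemannHypothesis) (s : ℝ) (hs : 1 ≤ s) :
    ∃ ε : ℝ, 0 < ε ∧ ∀ᶠ N : ℕ in atTop, ∀ a : ℝ,
      ε * N ≤ ({n : ℕ | 1 ≤ n ∧ n ≤ N ∧ ∀ k : ℤ, ε ≤ |δ n - (a + s * k)|}.ncard : ℝ) := by
  have hdel : ∀ n, H177.Lat.del2 n = δ n := fun n => rfl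
  have hs0 : 0 < s := by linarith
  obtain ⟨ε, hε, h⟩ := H177.Lat.coset_all RH (1 / s) (by positivity) (by
    rw [div_le_one hs0]; exact hs)
  refine ⟨ε, hε, ?_⟩
  filter_upwards [h] with N hN a
  have h1 := hN a
  have e : ∀ (n : ℕ) (k : ℤ), H177.Lat.del2 n - a - k / (1 / s) = δ n - (a + s * k) := by
    intro n k
    rw [hdel, div_div_eq_mul_div, div_one]
    ring
  unfold H177.Lat.WW at h1
  simp only [e] at h1
  exact h1

end Pool.Agent.Results.MP_7eacff_nt.CosetExclusion
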