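import Pool.Agent.H360R2.RG.Main

open Filter

namespace Pool.Agent.Results.MP_7eacff_nt.LargeRSums

/-- multiplicity of `s` as a zero of the Riemann zeta function (order of vanishing at `s`) -/
noncomputable def zmult (s : ℂ) : ℕ := analyticOrderNatAt riemannZeta s

/-- the number of nontrivial zeros of `ζ` with ordinate in `(0, t]`, with multiplicity -/
noncomputable def NZ (t : ℝ) : ℕ :=
  ∑ᶠ s ∈ {s : ℂ | riemannZeta s = 0 ∧ 0 < s.re ∧ s.re < 1 ∧ 0 < s.im ∧ s.im ≤ t}, zmult s

/-- for `n ≥ 1`: the `n`-th positive ordinate `γ n` of a nontrivial zero of `ζ`, the ordinates being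
listed in nondecreasing order and repeated according to multiplicity -/
noncomputable def γ (n : ℕ) : ℝ := sInf {t : ℝ | n ≤ NZ t}

/-- the unfolded consecutive gaps `δ_n = (γ_{n+1} - γ_n) / 2π · log (γ_n / 2π)` -/
noncomputable def δ (n : ℕ) : ℝ := (γ (n + 1) - γ n) / (2 * Real.pi) * Real.log (γ n / (2 * Real.pi))

/-- On the Riemann hypothesis, for every `ε > 0` and all large `r`, the sum of `r` consecutive
unfolded gaps is larger than `r + (2 - ε) √r` for a positive proportion of the `n`. -/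
theorem result (RH : RiemannHypothesis) (ε : ℝ) (hε : 0 < ε) :
    ∃ r0 : ℕ, ∀ r : ℕ, r0 ≤ r → ∃ p : ℝ, 0 < p ∧ ∀ᶠ N : ℕ in atTop,
      p ≤ (1 / N : ℝ) * ({n : ℕ | 1 ≤ n ∧ n ≤ N ∧
        r + (2 - ε) * Real.sqrt r < ∑ i ∈ Finset.range r, δ (n + i)}.ncard : ℝ) := by
  have hRHs : SP.RHs := by
    intro s h1 h2 h0
    apply RH s h0
    · rintro ⟨k, hk⟩
      have := congrArg Complex.re hk
      simp at this
      have hk0 : (0 : ℝ) ≤ k := Nat.cast_nonneg k
      linarith
    · intro h; rw [h] at h2; simp at h2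
  obtain ⟨k0, h0⟩ := RGap.ASYM_main hRHs ε hε
  refine ⟨k0, fun r hr => ?_⟩
  obtain ⟨p, hp, h⟩ := (h0 r hr).1
  refine ⟨p, hp, ?_⟩
  filter_upwards [h, eventually_gt_atTop 0] with N hN hN0
  have hNpos : (0 : ℝ) < N := by exact_mod_cast hN0
  rw [one_div, inv_mul_eq_div, le_div_iff₀ hNpos]
  refine hN.trans ?_
  have hsub : {n : ℕ | 1 ≤ n ∧ n ≤ N ∧
        r + (2 - ε) * Real.sqrt r < (SG.ord (n + r) - SG.ord n) / (2 * Real.pi) *
          Real.log (SG.ord n / (2 * Real.pi))} ⊆
      {n : ℕ | 1 ≤ n ∧ n ≤ N ∧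
        r + (2 - ε) * Real.sqrt r < ∑ i ∈ Finset.range r, δ (n + i)} := by
    rintro n ⟨h1, h2, h3⟩
    refine ⟨h1, h2, lt_of_lt_of_le h3 ?_⟩
    have hpi := Real.pi_pos
    have hp0 : 0 < SG.ord n := SG.ord_pos h1
    have h4 : ∀ i : ℕ, (SG.ord (n + (i + 1)) - SG.ord (n + i)) / (2 * Real.pi) *
        Real.log (SG.ord n / (2 * Real.pi)) ≤ δ (n + i) := by
      intro i
      show _ ≤ (SG.ord (n + i + 1) - SG.ord (n + i)) / (2 * Real.pi) *
        Real.log (SG.ord (n + i) / (2 * Real.pi))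
      rw [show n + (i + 1) = n + i + 1 by ring]
      apply mul_le_mul_of_nonneg_left
      · apply Real.log_le_log (by positivity)
        apply div_le_div_of_nonneg_right _ (by positivity)
        exact SG.ord_mono h1 (by omega)
      · apply div_nonneg _ (by positivity)
        have := SG.ord_mono (show 1 ≤ n + i by omega) (show n + i ≤ n + i + 1 by omega)
        linarith
    calc (SG.ord (n + r) - SG.ord n) / (2 * Real.pi) * Real.log (SG.ord n / (2 * Real.pi))
        = ∑ i ∈ Finset.range r, (SG.ord (n + (i + 1)) - SG.ord (n + i)) / (2 * Real.pi) *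
          Real.log (SG.ord n / (2 * Real.pi)) := by
          rw [← Finset.sum_mul, ← Finset.sum_div,
            Finset.sum_range_sub (fun i => SG.ord (n + i)) r, add_zero]
      _ ≤ ∑ i ∈ Finset.range r, δ (n + i) := Finset.sum_le_sum fun i _ => h4 i
  exact_mod_cast Set.ncard_le_ncard hsub
    ((Set.finite_Iic N).subset (fun n hn => hn.2.1))

end Pool.Agent.Results.MP_7eacff_nt.LargeRSums
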